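import Pool.Agent.Helper72.EP.Spec2

/-! # I3: two components share at most three indices -/

namespace ErdPos

open Finset

open Classical in
/-- elements of `D` carried by `T` -/
noncomputable def i3_cf {V E : Type} (carry : Sym2 V → Set E) (D : Finset E)
    (T : Finset (Sym2 V)) : Finset E := D.filter (fun f => ∃ h ∈ T, f ∈ carry h)

lemma i3_mem {V E : Type} (carry : Sym2 V → Set E) (D : Finset E)
    (T : Finset (Sym2 V)) (f : E) : f ∈ i3_cf carry D T ↔ f ∈ D ∧ ∃ h ∈ T, f ∈ carry h := by
  classical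
  unfold i3_cf
  rw [mem_filter]

lemma i3_par_union {E X : Type} [DecidableEq E] (inc : E → X → Prop) {A B : Finset E}
    (h : Disjoint A B) (x : X) : par inc (A ∪ B) x = par inc A x + par inc B x := by
  classical
  unfold par
  rw [filter_union, card_union_of_disjoint (disjoint_filter_filter h)]
  push_cast
  rfl

lemma i3_const {V Y : Type} [DecidableEq V] {ZZ : SimpleGraph V} {y : V → Y}
    (h : ∀ u v, ZZ.Adj u v → y u = y v) {U : Finset V} (hU : Conn ZZ U) {a b : V}
    (ha : a ∈ U) (hb : b ∈ U) : y a = y b := by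
  classical
  by_contra hne
  have hB : U.filter (fun v => y v = y a) ≠ U := by
    intro he
    have : b ∈ U.filter (fun v => y v = y a) := by rw [he]; exact hb
    exact hne (mem_filter.1 this).2.symm
  obtain ⟨u, hu, v, hv, huv⟩ := hU.2 (U.filter (fun v => y v = y a)) (filter_subset _ _)
    ⟨a, mem_filter.2 ⟨ha, rfl⟩⟩ hB
  rw [mem_filter] at hu
  rw [mem_sdiff, mem_filter] at hv
  exact hv.2 ⟨hv.1, by rw [← h u v huv, hu.2]⟩

lemma i3_path {V E X : Type} [Fintype V] [DecidableEq V] (PAll : ST_PA) {inc : E → X → Prop}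
    {𝒟 : Set (Finset E)} {carry : Sym2 V → Set E} {TD : Finset E → SimpleGraph V}
    {ZZ : SimpleGraph V} {y : V → X → ZMod 2} (hT : TSys inc 𝒟 carry TD ZZ y)
    {D : Finset E} (hD : D ∈ 𝒟) (x : X) : ∀ (n : ℕ) (a b : V) (S : Finset V)
    (T : Finset (Sym2 V)), S.card = n → Pth (TD D) a b S T →
    y a x + y b x = par inc (i3_cf carry D T) x := by
  classical
  intro n
  induction n with
  | zero =>
    intro a b S T hn hp
    have := ((PAll V (TD D)).ends a b S T hp).1
    rw [card_eq_zero.1 hn] at this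
    exact absurd this (notMem_empty a)
  | succ n ih =>
    intro a b S T hn hp
    by_cases hab : a = b
    · subst hab
      obtain ⟨_, h2⟩ := (PAll V (TD D)).triv a S T hp
      have he : i3_cf carry D T = ∅ := by
        rw [eq_empty_iff_forall_notMem]
        intro f hf
        obtain ⟨_, h, hh, _⟩ := (i3_mem carry D T f).1 hf
        rw [h2] at hh
        exact notMem_empty _ hh
      rw [he]
      have : par inc (∅ : Finset E) x = 0 := by unfold par; simp
      rw [this]
      exact CharTwo.add_self_eq_zero _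
    · obtain ⟨z, S', T', hadj, hp', haS', hSS, hTT, hnm⟩ := (PAll V (TD D)).step a b S T hp hab
      have hn' : S'.card = n := by
        rw [hSS, card_insert_of_notMem haS'] at hn
        omega
      have h1 := ih z b S' T' hn' hp'
      have h2 := hT.t3' D hD a z hadj x
      have hdis : Disjoint (D.filter (fun f => f ∈ carry s(a, z))) (i3_cf carry D T') := by
        rw [disjoint_left]
        intro f hf hf'
        obtain ⟨_, h, hh, hfh⟩ := (i3_mem carry D T' f).1 hf'
        have heq := hT.t2 _ _ f hfh (mem_filter.1 hf).2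
        rw [heq] at hh
        exact hnm hh
      have hun : i3_cf carry D T = D.filter (fun f => f ∈ carry s(a, z)) ∪ i3_cf carry D T' := by
        ext f
        rw [mem_union, i3_mem, i3_mem, mem_filter, hTT]
        constructor
        · rintro ⟨hfD, h, hh, hfh⟩
          rcases mem_insert.1 hh with rfl | hh
          · exact Or.inl ⟨hfD, hfh⟩
          · exact Or.inr ⟨hfD, h, hh, hfh⟩
        · rintro (⟨hfD, hf⟩ | ⟨hfD, h, hh, hfh⟩)
          · exact ⟨hfD, _, mem_insert_self _ _, hf⟩
          · exact ⟨hfD, h, mem_insert_of_mem hh, hfh⟩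
      rw [hun, i3_par_union inc hdis, ← h1]
      have h2' : y a x + y z x = par inc (D.filter (fun f => f ∈ carry s(a, z))) x := by
        convert h2
      rw [← h2']
      have h3 := CharTwo.add_self_eq_zero (y z x)
      calc y a x + y b x = y a x + (y z x + y z x) + y b x := by rw [h3]; ring
        _ = _ := by ring

theorem st_I3 (h1 : ST_PA) (h2 : ST_CA) : ST_I3 := by
  classical
  intro V _ _ E X inc 𝒟 carry TD ZZ y hS hT U U' hU hU' hne P hP
  by_cases hPe : P.Nonempty
  swap
  · rw [not_nonempty_iff_eq_empty.1 hPe]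
    simp
  obtain ⟨a0, ha0⟩ := hU.nonempty
  obtain ⟨b0, hb0⟩ := hU'.nonempty
  -- every index gives a proper part
  have key : ∀ D ∈ P, ∃ D1 ⊆ D, D1.Nonempty ∧ D1 ≠ D ∧
      ∀ x, y a0 x + y b0 x = par inc D1 x := by
    intro D hDP
    obtain ⟨hD, S, T, hST, ⟨a, ha⟩, ⟨b, hb⟩⟩ := hP D hDP
    rw [mem_inter] at ha hb
    have hab : a ≠ b := by
      rintro rfl
      exact hne (hU.eq_of_mem hU' ha.2 hb.2)
    obtain ⟨S1, T1, S2, T2, hp1, hp2, _, _, hdis, hun⟩ :=
      (h2 V (TD D)).split a b S T hST.1 ha.1 hb.1 hab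
    have hzero : ∀ S1 T1, Pth (TD D) a b S1 T1 → (i3_cf carry D T1).Nonempty := by
      intro S1 T1 hp1
      by_contra hcon
      rw [not_nonempty_iff_eq_empty, eq_empty_iff_forall_notMem] at hcon
      have hz : Pth ZZ a b S1 T1 := by
        apply (h1 V (TD D)).transfer ZZ a b S1 T1 hp1
        intro e he
        obtain ⟨p, _, q, _, hpq, rfl⟩ := (h1 V (TD D)).tmem a b S1 T1 hp1 e he
        rw [SimpleGraph.mem_edgeSet]
        apply hT.t1 D hD p q hpq
        intro f hf hfc
        exact hcon f ((i3_mem carry D T1 f).2 ⟨hf, _, he, hfc⟩)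
      have hc := (h1 V ZZ).conn a b S1 T1 hz
      have he := (h1 V ZZ).ends a b S1 T1 hz
      have hbU : b ∈ U := hU.subset_of_mem hc (subset_univ _) he.1 ha.2 he.2
      exact hne (hU.eq_of_mem hU' hbU hb.2)
    refine ⟨i3_cf carry D T1, fun f hf => ((i3_mem carry D T1 f).1 hf).1, hzero S1 T1 hp1,
      ?_, ?_⟩
    · intro he
      obtain ⟨f, hf⟩ := hzero S2 T2 hp2
      obtain ⟨hfD, h, hh, hfh⟩ := (i3_mem carry D T2 f).1 hf
      rw [← he] at hfD
      obtain ⟨_, h', hh', hfh'⟩ := (i3_mem carry D T1 f).1 hfD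
      have := hT.t2 _ _ f hfh hfh'
      rw [this] at hh
      exact disjoint_left.1 hdis hh' hh
    · intro x
      rw [← i3_path h1 hT hD x S1.card a b S1 T1 rfl hp1,
        i3_const hT.t3 hU.conn ha0 ha.2, i3_const hT.t3 hU'.conn hb0 hb.2]
  obtain ⟨D0, hD0⟩ := hPe
  obtain ⟨D1, hsub, hne1, hne2, hpar⟩ := key D0 hD0
  have hx : ∃ x, par inc D1 x ≠ 0 := by
    by_contra hcon
    push Not at hcon
    exact hne2 (hS.mini D0 (hP D0 hD0).1 D1 hsub hne1 hcon)
  obtain ⟨x, hx⟩ := hx
  apply hS.three x P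
  intro D hDP
  refine ⟨(hP D hDP).1, ?_⟩
  obtain ⟨D2, hsub2, _, _, hpar2⟩ := key D hDP
  rw [← hpar x, hpar2 x] at hx
  unfold par at hx
  by_contra hcon
  push Not at hcon
  apply hx
  rw [filter_eq_empty_iff.2 (fun e he hinc => hcon e (hsub2 he) hinc)]
  simp

end ErdPos
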