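import Pool.Agent.Helper72.EP.Spec2

/-! # TEP: Erdős–Pósa for torso systems -/

namespace ErdPos

open Finset

lemma tep_att_sub {V E : Type} (carry : Sym2 V → Set E) (D : Finset E) (U : Finset V) :
    att carry D U ⊆ U := by
  classical
  unfold att
  exact filter_subset _ _

lemma tep_pair {V : Type} [DecidableEq V] {a b c d : V} (h : ({a, b} : Finset V) = {c, d}) :
    (a = c ∧ b = d) ∨ (a = d ∧ b = c) := by
  have ha : a ∈ ({c, d} : Finset V) := by rw [← h]; simp
  have hb : b ∈ ({c, d} : Finset V) := by rw [← h]; simp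
  have hc : c ∈ ({a, b} : Finset V) := by rw [h]; simp
  have hd : d ∈ ({a, b} : Finset V) := by rw [h]; simp
  simp only [mem_insert, mem_singleton] at ha hb hc hd
  grind

/-- growing admissible sets -/
lemma tep_grow {α : Type} (Q : Finset α → Prop) (h0 : Q ∅) (k : ℕ) :
    (∃ P, P.card = k ∧ Q P) ∨
    ∃ P, P.card < k ∧ Q P ∧ ∀ P', P'.card = P.card + 1 → ¬ Q P' := by
  induction k with
  | zero => exact Or.inl ⟨∅, rfl, h0⟩
  | succ k ih =>
    rcases ih with ⟨P, hP, hQ⟩ | ⟨P, hP, hQ, hmax⟩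
    · by_cases h : ∃ P', P'.card = k + 1 ∧ Q P'
      · exact Or.inl h
      · refine Or.inr ⟨P, by omega, hQ, fun P' hP' hQ' => h ⟨P', by omega, hQ'⟩⟩
    · exact Or.inr ⟨P, by omega, hQ, hmax⟩

theorem st_TEP (h1 : ST_DL) (h2 : ST_UARC) (h3 : ST_I3) (h4 : ST_REPL) (h5 : ST_PA)
    (h6 : ST_CA) : ST_TEP := by
  classical
  obtain ⟨g, hg⟩ := h1
  refine ⟨fun k => k + 2 ^ k * g k, ?_⟩
  intro V _ _ E X inc 𝒟 carry TD ZZ y hS hT k
  have PA := h5 V ZZ
  -- components
  have comp_ex : ∀ v : V, ∃ U, IsComp ZZ univ U ∧ v ∈ U := fun v => exists_comp (mem_univ v)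
  -- facts from UARC
  have arc := h2 V E X inc 𝒟 carry TD ZZ y hS hT
  have attS : ∀ D ∈ 𝒟, ∀ U, IsComp ZZ univ U → ∀ S T, DCyc carry TD D S T →
      ∀ w ∈ att carry D U, w ∈ S ∩ U := by
    intro D hD U hU S T hST w hw
    exact mem_inter.2 ⟨(arc D hD U hU S T hST).1 w hw, tep_att_sub carry D U hw⟩
  have attNe : ∀ D ∈ 𝒟, ∀ U, IsComp ZZ univ U → ∀ S T, DCyc carry TD D S T →
      (S ∩ U).Nonempty → (att carry D U).Nonempty := by
    intro D hD U hU S T hST hne
    obtain ⟨a, b, hab, _⟩ := (arc D hD U hU S T hST).2 hne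
    rw [hab]
    exact ⟨a, by simp⟩
  set Good : Finset E → Prop := fun D => D ∈ 𝒟 ∧ ∃ S T, DCyc carry TD D S T with hGood
  set Adm : Finset (Finset E) → Prop := fun P => (∀ D ∈ P, Good D) ∧
    ∀ U, IsComp ZZ univ U → (P.filter (fun D => (att carry D U).Nonempty)).card ≤ 4 with hAdm
  have adm0 : Adm ∅ := ⟨by simp, by simp⟩
  rcases tep_grow Adm adm0 k with ⟨P, hPk, hP⟩ | ⟨P, hPk, hP, hmax⟩
  · -- enough indices
    left
    have hch : ∀ D : Finset E, ∃ S : Finset V, D ∈ P → ∃ T, DCyc carry TD D S T := by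
      intro D
      by_cases hD : D ∈ P
      · obtain ⟨S, T, hST⟩ := (hP.1 D hD).2
        exact ⟨S, fun _ => ⟨T, hST⟩⟩
      · exact ⟨∅, fun h => absurd h hD⟩
    choose S hSch using hch
    refine ⟨P, S, hPk, fun D hD => ⟨(hP.1 D hD).1, hSch D hD⟩, fun v => ?_⟩
    obtain ⟨U, hU, hvU⟩ := comp_ex v
    refine le_trans (card_le_card ?_) (hP.2 U hU)
    intro D hD
    rw [mem_filter] at hD ⊢
    obtain ⟨T, hST⟩ := hSch D hD.1
    exact ⟨hD.1, attNe D (hP.1 D hD.1).1 U hU (S D) T hST ⟨v, mem_inter.2 ⟨hD.2, hvU⟩⟩⟩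
  -- saturated components
  set Sat : Finset (Finset V) := (univ : Finset (Finset V)).filter
    (fun U => IsComp ZZ univ U ∧ 4 ≤ (P.filter (fun D => (att carry D U).Nonempty)).card)
    with hSat
  have sat_inj : Set.InjOn (fun U => P.filter (fun D => (att carry D U).Nonempty))
      (Sat : Set (Finset V)) := by
    intro U hU U' hU' he
    by_contra hne
    have hU1 := (mem_filter.1 (mem_coe.1 hU)).2
    have hU2 := (mem_filter.1 (mem_coe.1 hU')).2
    have h3' := h3 V E X inc 𝒟 carry TD ZZ y hS hT U U' hU1.1 hU2.1 hne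
      (P.filter (fun D => (att carry D U).Nonempty)) (by
        intro D hD
        have hD' : D ∈ P.filter (fun D => (att carry D U').Nonempty) := by
          have he' : P.filter (fun D => (att carry D U).Nonempty) =
            P.filter (fun D => (att carry D U').Nonempty) := he
          rw [← he']; exact hD
        rw [mem_filter] at hD hD'
        obtain ⟨hDD, S, T, hST⟩ := hP.1 D hD.1
        obtain ⟨w, hw⟩ := hD.2
        obtain ⟨w', hw'⟩ := hD'.2
        exact ⟨hDD, S, T, hST, ⟨w, attS D hDD U hU1.1 S T hST w hw⟩,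
          ⟨w', attS D hDD U' hU2.1 S T hST w' hw'⟩⟩)
    omega
  have sat_card : Sat.card ≤ 2 ^ k := by
    calc Sat.card = (Sat.image (fun U => P.filter (fun D => (att carry D U).Nonempty))).card :=
          (card_image_of_injOn sat_inj).symm
      _ ≤ P.powerset.card := by
          apply card_le_card
          intro Q hQ
          obtain ⟨U, _, rfl⟩ := mem_image.1 hQ
          exact mem_powerset.2 (filter_subset _ _)
      _ = 2 ^ P.card := card_powerset P
      _ ≤ 2 ^ k := Nat.pow_le_pow_right (by norm_num) hPk.le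
  have sat_cover : ∀ D, Good D → D ∉ P → ∃ U ∈ Sat, (att carry D U).Nonempty := by
    intro D hD hDP
    have hn := hmax (insert D P) (card_insert_of_notMem hDP)
    have hex : ∃ U, IsComp ZZ univ U ∧
        ¬ ((insert D P).filter (fun D => (att carry D U).Nonempty)).card ≤ 4 := by
      by_contra hcon
      push Not at hcon
      apply hn
      refine ⟨fun D' hD' => ?_, hcon⟩
      rcases mem_insert.1 hD' with rfl | h
      · exact hD
      · exact hP.1 D' h
    obtain ⟨U, hU, hbig⟩ := hex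
    have hle := hP.2 U hU
    by_cases hne : (att carry D U).Nonempty
    · refine ⟨U, mem_filter.2 ⟨mem_univ _, hU, ?_⟩, hne⟩
      rw [filter_insert, if_pos hne, card_insert_of_notMem (by
        rw [mem_filter]; exact fun h => hDP h.1)] at hbig
      omega
    · rw [filter_insert, if_neg hne] at hbig
      exact absurd hle hbig
  -- the demand lemma in each saturated component
  have key : ∀ U ∈ Sat, (∃ (P : Finset (Finset E)) (S : Finset E → Finset V), P.card = k ∧
      (∀ D ∈ P, D ∈ 𝒟 ∧ ∃ T, DCyc carry TD D (S D) T) ∧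
      ∀ v, (P.filter (fun D => v ∈ S D)).card ≤ 4) ∨
      ∃ Z : Finset V, Z.card ≤ g k ∧ ∀ D, Good D → (att carry D U).Nonempty →
        ∀ S T, DCyc carry TD D S T → ∃ v ∈ S, v ∈ Z := by
    intro U hUS
    obtain ⟨hU, _⟩ := (mem_filter.1 hUS).2
    -- index type
    let ι : Type := {D : Finset E // Good D ∧ (att carry D U).Nonempty}
    have hab : ∀ i : ι, ∃ p : V × V, att carry i.1 U = {p.1, p.2} := by
      rintro ⟨D, ⟨hDD, S, T, hST⟩, w, hw⟩
      obtain ⟨a, b, hab, _⟩ := (arc D hDD U hU S T hST).2 ⟨w, attS D hDD U hU S T hST w hw⟩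
      exact ⟨(a, b), hab⟩
    choose ab hab using hab
    let fl : ι → Prop := fun i => (∃ f ∈ i.1, f ∈ carry s((ab i).1, (ab i).2)) ∧
      (ab i).1 ≠ (ab i).2
    rcases hg V ZZ ι (fun i => (ab i).1) (fun i => (ab i).2) fl U k (fun i hi => hi.2) with
      ⟨I, S, hIk, hIS, hcong⟩ | ⟨Z, hZ, hZ'⟩
    · left
      have hrep : ∀ D : Finset E, ∃ S'' : Finset V, ∀ (i : ι), i.1 = D → i ∈ I →
          ∃ S0 T0 T'', DCyc carry TD D S0 T0 ∧ (att carry D U).Nonempty ∧
            DCyc carry TD D S'' T'' ∧ S'' ⊆ S i ∪ (S0 \ U) := by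
        intro D
        by_cases hD : ∃ i : ι, i.1 = D ∧ i ∈ I
        · obtain ⟨i, rfl, hi⟩ := hD
          obtain ⟨hDD, S0, T0, hST0⟩ := i.2.1
          obtain ⟨hSU, ⟨T1, hT1⟩, hfl⟩ := hIS i hi
          have hfl' : (∃ f ∈ i.1, f ∈ carry s((ab i).1, (ab i).2)) → 3 ≤ (S i).card := by
            intro hf
            by_cases he : (ab i).1 = (ab i).2
            · exfalso
              obtain ⟨f, hf1, hf2⟩ := hf
              obtain ⟨h, hh, hfh⟩ := hST0.2 f hf1
              have heq : h = s((ab i).1, (ab i).2) := hT.t2 _ _ f hfh hf2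
              rw [heq] at hh
              exact ((h6 V (TD i.1)).edge _ _ _ _ hST0.1 hh).1 he
            · exact hfl ⟨hf, he⟩
          obtain ⟨S'', T'', hD'', hsub⟩ := h4 V E X inc 𝒟 carry TD ZZ y hS hT i.1 hDD U hU
            S0 T0 hST0 (ab i).1 (ab i).2 (hab i) (S i) T1 hT1 hSU hfl'
          refine ⟨S'', fun j hj _ => ?_⟩
          have : j = i := Subtype.ext hj
          subst this
          exact ⟨S0, T0, T'', hST0, j.2.2, hD'', hsub⟩
        · refine ⟨∅, fun i hi hiI => absurd ⟨i, hi, hiI⟩ hD⟩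
      choose S'' hS'' using hrep
      have hinj : Set.InjOn (fun i : ι => i.1) (I : Set ι) :=
        fun a _ b _ h => Subtype.ext h
      refine ⟨I.image (fun i => i.1), S'', ?_, ?_, ?_⟩
      · rw [card_image_of_injOn hinj, hIk]
      · intro D hD
        obtain ⟨i, hi, rfl⟩ := mem_image.1 hD
        obtain ⟨S0, T0, T'', _, _, hc, _⟩ := hS'' i.1 i rfl hi
        exact ⟨i.2.1.1, T'', hc⟩
      · intro v
        by_cases hv : v ∈ U
        · calc ((I.image (fun i => i.1)).filter (fun D => v ∈ S'' D)).card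
              ≤ ((I.filter (fun i => v ∈ S i)).image (fun i => i.1)).card := by
                apply card_le_card
                intro D hD
                rw [mem_filter] at hD
                obtain ⟨i, hi, rfl⟩ := mem_image.1 hD.1
                obtain ⟨S0, T0, T'', _, _, _, hsub⟩ := hS'' i.1 i rfl hi
                refine mem_image.2 ⟨i, mem_filter.2 ⟨hi, ?_⟩, rfl⟩
                rcases mem_union.1 (hsub hD.2) with h | h
                · exact h
                · exact absurd hv (mem_sdiff.1 h).2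
            _ ≤ (I.filter (fun i => v ∈ S i)).card := card_image_le
            _ ≤ 4 := hcong v
        · obtain ⟨U', hU', hvU'⟩ := comp_ex v
          have hne : U ≠ U' := by
            rintro rfl
            exact hv hvU'
          have := h3 V E X inc 𝒟 carry TD ZZ y hS hT U U' hU hU' hne
            ((I.image (fun i => i.1)).filter (fun D => v ∈ S'' D)) (by
              intro D hD
              rw [mem_filter] at hD
              obtain ⟨i, hi, rfl⟩ := mem_image.1 hD.1
              obtain ⟨S0, T0, T'', hc0, hatt, _, hsub⟩ := hS'' i.1 i rfl hi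
              obtain ⟨w, hw⟩ := hatt
              have hvS0 : v ∈ S0 := by
                rcases mem_union.1 (hsub hD.2) with h | h
                · exact absurd ((hIS i hi).1 h) hv
                · exact (mem_sdiff.1 h).1
              exact ⟨i.2.1.1, S0, T0, hc0, ⟨w, attS i.1 i.2.1.1 U hU S0 T0 hc0 w hw⟩,
                ⟨v, mem_inter.2 ⟨hvS0, hvU'⟩⟩⟩)
          omega
    · right
      refine ⟨Z, hZ, ?_⟩
      intro D hD hatt S T hST
      have hne : (S ∩ U).Nonempty := by
        obtain ⟨w, hw⟩ := hatt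
        exact ⟨w, attS D hD.1 U hU S T hST w hw⟩
      obtain ⟨a, b, hab', hcase⟩ := (arc D hD.1 U hU S T hST).2 hne
      have hi := hab ⟨D, hD, hatt⟩
      have hpair : ({(ab ⟨D, hD, hatt⟩).1, (ab ⟨D, hD, hatt⟩).2} : Finset V) = {a, b} := by
        rw [← hi, ← hab']
      have hpth : ∃ T', Pth ZZ (ab ⟨D, hD, hatt⟩).1 (ab ⟨D, hD, hatt⟩).2 (S ∩ U) T' := by
        rcases hcase with ⟨he, hSU⟩ | ⟨_, T1, S2, T2, hp, _⟩
        · rcases tep_pair hpair with ⟨e1, e2⟩ | ⟨e1, e2⟩
          · rw [e1, e2, ← he, hSU]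
            exact ⟨∅, PA.refl a⟩
          · rw [e1, e2, ← he, hSU]
            exact ⟨∅, PA.refl a⟩
        · rcases tep_pair hpair with ⟨e1, e2⟩ | ⟨e1, e2⟩
          · rw [e1, e2]
            exact ⟨T1, hp⟩
          · rw [e1, e2]
            exact ⟨T1, hp.symm⟩
      obtain ⟨T', hT'⟩ := hpth
      obtain ⟨v, hv, hvZ⟩ := hZ' ⟨D, hD, hatt⟩ (S ∩ U) T' hT' inter_subset_right (by
        rintro ⟨hf, hne2⟩
        rcases hcase with ⟨he, hSU⟩ | ⟨hab2, T1, S2, T2, _, _, _, _, _, h3c, _⟩
        · exfalso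
          apply hne2
          rcases tep_pair hpair with ⟨e1, e2⟩ | ⟨e1, e2⟩
          · rw [e1, e2, he]
          · rw [e1, e2, he]
        · apply h3c
          obtain ⟨f, hf1, hf2⟩ := hf
          refine ⟨f, hf1, ?_⟩
          rcases tep_pair hpair with ⟨e1, e2⟩ | ⟨e1, e2⟩
          · rwa [e1, e2] at hf2
          · rw [e1, e2, Sym2.eq_swap] at hf2
            exact hf2)
      exact ⟨v, (mem_inter.1 hv).1, hvZ⟩
  by_cases hex : ∃ U ∈ Sat, (∃ (P : Finset (Finset E)) (S : Finset E → Finset V), P.card = k ∧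
      (∀ D ∈ P, D ∈ 𝒟 ∧ ∃ T, DCyc carry TD D (S D) T) ∧
      ∀ v, (P.filter (fun D => v ∈ S D)).card ≤ 4)
  · obtain ⟨U, _, h⟩ := hex
    exact Or.inl h
  · right
    have key' : ∀ U : Finset V, ∃ Z : Finset V, U ∈ Sat → Z.card ≤ g k ∧
        ∀ D, Good D → (att carry D U).Nonempty →
        ∀ S T, DCyc carry TD D S T → ∃ v ∈ S, v ∈ Z := by
      intro U
      by_cases hU : U ∈ Sat
      · rcases key U hU with h | ⟨Z, hZ⟩
        · exact absurd ⟨U, hU, h⟩ hex
        · exact ⟨Z, fun _ => hZ⟩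
      · exact ⟨∅, fun h => absurd h hU⟩
    choose Z hZ using key'
    -- one vertex for each chosen index
    have hz : ∀ D : Finset E, ∃ Y : Finset V, Y.card ≤ 1 ∧ (D ∈ P → ∀ S T,
        DCyc carry TD D S T → ∃ v ∈ S, v ∈ Y) := by
      intro D
      by_cases hD : D ∈ P
      · obtain ⟨hDD, S0, T0, hST0⟩ := hP.1 D hD
        have hS0 : S0.Nonempty := by
          have := ((h6 V (TD D)).card _ _ hST0.1).1
          rw [← card_pos]
          omega
        obtain ⟨v, hv⟩ := hS0
        obtain ⟨U, hU, hvU⟩ := comp_ex v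
        obtain ⟨w, hw⟩ := attNe D hDD U hU S0 T0 hST0 ⟨v, mem_inter.2 ⟨hv, hvU⟩⟩
        exact ⟨{w}, by simp, fun _ S T hST =>
          ⟨w, (mem_inter.1 (attS D hDD U hU S T hST w hw)).1, mem_singleton_self w⟩⟩
      · exact ⟨∅, by simp, fun h => absurd h hD⟩
    choose Y hY1 hY2 using hz
    refine ⟨P.biUnion Y ∪ Sat.biUnion Z, ?_, ?_⟩
    · have e1 : (P.biUnion Y).card ≤ k := by
        calc (P.biUnion Y).card ≤ P.card * 1 := card_biUnion_le_card_mul _ _ _ (fun D _ => hY1 D)
          _ ≤ k := by omega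
      have e2 : (Sat.biUnion Z).card ≤ 2 ^ k * g k := by
        calc (Sat.biUnion Z).card ≤ Sat.card * g k :=
              card_biUnion_le_card_mul _ _ _ (fun U hU => (hZ U hU).1)
          _ ≤ 2 ^ k * g k := Nat.mul_le_mul_right _ sat_card
      calc _ ≤ (P.biUnion Y).card + (Sat.biUnion Z).card := card_union_le _ _
        _ ≤ k + 2 ^ k * g k := add_le_add e1 e2
    · intro D hD S T hST
      by_cases hDP : D ∈ P
      · obtain ⟨v, hv, hvY⟩ := hY2 D hDP S T hST
        exact ⟨v, hv, mem_union_left _ (mem_biUnion.2 ⟨D, hDP, hvY⟩)⟩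
      · obtain ⟨U, hU, hatt⟩ := sat_cover D ⟨hD, S, T, hST⟩ hDP
        obtain ⟨v, hv, hvZ⟩ := (hZ U hU).2 D ⟨hD, S, T, hST⟩ hatt S T hST
        exact ⟨v, hv, mem_union_right _ (mem_biUnion.2 ⟨U, hU, hvZ⟩)⟩

end ErdPos
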